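import Pool.Agent.H.MP_eb9c50_an.A

set_option autoImplicit false

namespace Pool.Agent.Results.MP_eb9c50_an.NotSidon

open Pool.Agent.H.MP_eb9c50_an

theorem result :
    (∀ m : ℕ, 1 ≤ m → ∀ E : Set ℤ, (∀ k ∈ E, (m : ℤ) ∣ k → k = 0) → AutoCont E) ∧
    (∀ m r : ℤ, m ≠ 0 → ∀ E : Set ℤ, (∀ j : ℕ, r + m * j ∈ E) → ¬ Sidon E) ∧
    ∃ E : Set ℤ, AutoCont E ∧ ¬ Sidon E :=
  ⟨fun _ hm _ h => auto hm h, fun _ r hm _ h => not_sidon hm r h,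
    {k | Odd k}, auto (m := 2) two_pos fun k hk h =>
      absurd (even_iff_two_dvd.2 (by exact_mod_cast h)) (Int.not_even_iff_odd.2 hk),
    not_sidon two_ne_zero 1 fun j => ⟨j, by ring⟩⟩

end Pool.Agent.Results.MP_eb9c50_an.NotSidon
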